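import Pool.Agent.Y408.CS.NoSys

/-!
# Chromatic schemes: linear gap for all large `p`
-/

set_option autoImplicit false

namespace Pool.Agent.Y408.CS

open Finset Pool.Agent.Results.MP_4cad9a_co.SchemesFail

/-- what a chromatic scheme with `q` colours in a subgraph gives: `q` disjoint classes with roots -/
def Weak {V : Type} (G : SimpleGraph V) (q : ℕ) : Prop :=
  ∃ (U : Fin q → Finset V) (root : Fin q → V), (∀ i, root i ∈ U i) ∧
    (∀ i j, i ≠ j → Disjoint (U i) (U j)) ∧
    ∀ i j, i ≠ j → G.Adj (root i) (root j) ∨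
      ∃ a b : V, a ∈ U j ∧ a ≠ root j ∧ b ∈ U i ∧ b ≠ root i ∧ G.Adj a b

/-- a *Kempe clique* of order `q`: a proper colouring, with any number of colours, and `q`
vertices of distinct colours, every two of which are joined by a walk on which only the colours of
the two ends occur -/
def HasKempeClique {W : Type} (H : SimpleGraph W) (q : ℕ) : Prop :=
  ∃ (C : Type) (Q : W → C) (v : Fin q → W),
    (∀ x y, H.Adj x y → Q x ≠ Q y) ∧
    Function.Injective (fun i => Q (v i)) ∧
    ∀ i j, i ≠ j → ∃ P : H.Walk (v i) (v j), ∀ x ∈ P.support, Q x = Q (v i) ∨ Q x = Q (v j)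

theorem kempe_of_scheme {W : Type} (H : SimpleGraph W) (q : ℕ) (h : HasChromaticScheme H q) :
    HasKempeClique H q := by
  obtain ⟨Q, v, P, hQ, hv, hP, -, hinj, hbi⟩ := h
  refine ⟨Fin q, Q, v, hQ, hinj, ?_⟩
  intro i j hij
  rcases lt_or_gt_of_ne hij with hlt | hgt
  · exact ⟨P i j hlt, hbi i j hlt⟩
  · refine ⟨(P j i hgt).reverse, ?_⟩
    intro x hx
    rw [SimpleGraph.Walk.support_reverse, List.mem_reverse] at hx
    exact (hbi j i hgt x hx).symm

open Classical in
theorem weak_of_kempe {V : Type} [Fintype V] (G : SimpleGraph V) (G' : G.Subgraph) (q : ℕ)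
    (h : HasKempeClique G'.coe q) : Weak G q := by
  obtain ⟨C, Q, v, hQ, hinj, hbi⟩ := h
  let U : Fin q → Finset V := fun i => univ.filter (fun x => ∃ h : x ∈ G'.verts, Q ⟨x, h⟩ = Q (v i))
  let root : Fin q → V := fun i => (v i).1
  have memU : ∀ i (x : G'.verts), Q x = Q (v i) → (x : V) ∈ U i := by
    intro i x hx
    exact mem_filter.2 ⟨mem_univ _, x.2, hx⟩
  refine ⟨U, root, fun i => memU i (v i) rfl, ?_, ?_⟩
  · intro i j hij
    rw [Finset.disjoint_left]
    intro x hx hx'
    obtain ⟨h, hxi⟩ := (mem_filter.1 hx).2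
    obtain ⟨h', hxj⟩ := (mem_filter.1 hx').2
    exact hij (hinj (hxi.symm.trans hxj))
  · intro i j hij
    obtain ⟨P, hP⟩ := hbi i j hij
    rcases path_cases G'.coe Q hQ (x := v i) (y := v j) (fun h => hij (hinj h)) P.bypass
      P.bypass_isPath (fun z hz => hP z (P.support_bypass_subset_support hz))
        with h | ⟨a, b, ha, ha', hb, hb', hab⟩
    · exact Or.inl (G'.coe_adj_sub _ _ h)
    · exact Or.inr ⟨a, b, memU j a ha, fun h => ha' (Subtype.ext h), memU i b hb,
        fun h => hb' (Subtype.ext h), G'.coe_adj_sub _ _ hab⟩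

open Classical in
/-- the basic graphs: `4864 * (2 ^ 97 * w ^ 15)` vertices -/
theorem base (w0 : ℕ) (hm : 16777216 ≤ w0) : ∃ (V : Type) (_ : Fintype V) (Hg : SimpleGraph V),
    (∀ x y z, Hg.Adj x y → Hg.Adj y z → Hg.Adj x z → False) ∧
    Fintype.card V = 4864 * (2 ^ 97 * w0 ^ 15) ∧
    ∀ q : ℕ, Fintype.card V ≤ 2 * q + 21 * (2 ^ 97 * w0 ^ 15) → ¬ Weak Hgᶜ q := by
  obtain ⟨t, s', n, L, ht, hs', htK, hn, hs, h0, h1⟩ := numerics' w0 hm
  have hspos : 1 ≤ s' := by
    rw [hs']
    exact Nat.mul_pos (Nat.pow_pos (by norm_num)) (Nat.pow_pos (by omega))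
  let V : Type := Σ a : Fin 6, Fin (wt a * (256 * s'))
  let π : V → Fin 6 := Sigma.fst
  have hπ : ∀ a, (univ.filter (fun x : V => π x = a)).card = wt a * (256 * s') := by
    intro a
    have : (univ.filter (fun x : V => π x = a)) = univ.image (fun y : Fin (wt a * (256 * s')) => (⟨a, y⟩ : V)) := by
      ext x
      simp only [mem_filter, mem_univ, true_and, mem_image]
      constructor
      · rintro h
        obtain ⟨b, y⟩ := x
        have h' : b = a := h
        subst h'
        exact ⟨y, rfl⟩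
      · rintro ⟨y, rfl⟩; rfl
    rw [this, card_image_of_injective]
    · simp
    · intro y z h
      exact eq_of_heq (Sigma.mk.inj h).2
  have hcard : Fintype.card V = 19 * (256 * s') := by
    show Fintype.card (Σ a : Fin 6, Fin (wt a * (256 * s'))) = _
    rw [Fintype.card_sigma]
    simp only [Fintype.card_fin, Fin.sum_univ_six]
    simp [wt]
    ring
  have hVpos : 0 < Fintype.card V := by rw [hcard]; omega
  obtain ⟨ω, hA, hB⟩ := exists_good (π := π) (k := kmat) (K := 15) (t := t) ht (by norm_num)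
    kmat_le (2 * s') (s' * s') L hs (by rw [hcard, ← hn]; exact h0) (by rw [hcard, ← hn]; exact h1) hVpos
  -- the triangle-free graph
  let Hg : SimpleGraph V :=
    { Adj := FinAdj π kmat 15 t ω
      symm := ⟨fun x y h => FinAdj.symm kmat_symm h⟩
      loopless := ⟨fun x h => h.1.1 rfl⟩ }
  refine ⟨V, inferInstance, Hg, ?_, ?_, ?_⟩
  · intro x y z h1 h2 h3
    exact no_triangle kmat_symm kmat_tri h1 h2 h3
  · rw [hcard, ← hs']; ring
  rintro q hq ⟨U, root, hr, hdis, key⟩
  rw [← hs'] at hq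
  refine no_system' π (256 * s') (2 * s') (21 * s') hπ (fun x y => Hg.Adj x y) hA hB (by omega) q U
    root hr hdis hq ?_ ?_
  · intro i j hij hU hadj
    rcases key i j hij with h | ⟨a, b, ha, ha', hb, hb', hab⟩
    · exact ((SimpleGraph.compl_adj Hg _ _).1 h).2 hadj
    · rw [hU, mem_singleton] at hb
      exact hb' hb
  · rintro i j x y hij hUi hx hUj hy ⟨hadj1, hadj2⟩
    rcases key i j hij with h | ⟨a, b, ha, ha', hb, hb', hab⟩
    · exact ((SimpleGraph.compl_adj Hg _ _).1 h).2 hadj1
    · rw [hUi, mem_insert, mem_singleton] at hb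
      rw [hUj, mem_insert, mem_singleton] at ha
      have hbx : b = x := hb.resolve_left hb'
      have hay : a = y := ha.resolve_left ha'
      rw [hbx, hay] at hab
      exact ((SimpleGraph.compl_adj Hg _ _).1 hab).2 hadj2.symm

/-! ### adding universal vertices -/

/-- join of `G` and a complete graph with `r` vertices -/
def J {V : Type} (G : SimpleGraph V) (r : ℕ) : SimpleGraph (V ⊕ Fin r) where
  Adj x y := x ≠ y ∧ ∀ u v, x = Sum.inl u → y = Sum.inl v → G.Adj u v
  symm := ⟨fun x y h => ⟨h.1.symm, fun u v hu hv => (h.2 v u hv hu).symm⟩⟩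
  loopless := ⟨fun x h => h.1 rfl⟩

theorem J_inl {V : Type} {G : SimpleGraph V} {r : ℕ} {u v : V} :
    (J G r).Adj (Sum.inl u) (Sum.inl v) ↔ G.Adj u v := by
  constructor
  · intro h; exact h.2 u v rfl rfl
  · intro h
    refine ⟨fun h' => h.ne (Sum.inl.inj h'), ?_⟩
    intro u' v' hu hv
    rw [← Sum.inl.inj hu, ← Sum.inl.inj hv]
    exact h

theorem J_inr {V : Type} {G : SimpleGraph V} {r : ℕ} {x : V ⊕ Fin r} {i : Fin r}
    (h : x ≠ Sum.inr i) : (J G r).Adj x (Sum.inr i) :=
  ⟨h, fun _ _ _ hv => by cases hv⟩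

open Classical in
theorem weak_J {V : Type} {G : SimpleGraph V} {r q : ℕ} (h : Weak (J G r) (q + r)) : Weak G q := by
  obtain ⟨U, root, hr, hdis, key⟩ := h
  let S : Finset (Fin (q + r)) := univ.filter (fun i => ∀ k : Fin r, Sum.inr k ∉ U i)
  have hSc : (univ.filter (fun i : Fin (q + r) => ¬ ∀ k : Fin r, Sum.inr k ∉ U i)).card ≤ r := by
    have hex : ∀ i : Fin (q + r), ∃ k : Option (Fin r), (¬ ∀ k : Fin r, Sum.inr k ∉ U i) →
        ∃ k', k = some k' ∧ (Sum.inr k' : V ⊕ Fin r) ∈ U i := by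
      intro i
      by_cases h : ∀ k : Fin r, Sum.inr k ∉ U i
      · exact ⟨none, fun h' => absurd h h'⟩
      · have h2 := h
        push Not at h2
        obtain ⟨k, hk⟩ := h2
        exact ⟨some k, fun _ => ⟨k, rfl, hk⟩⟩
    choose g hg using hex
    have h1 : (univ.filter (fun i : Fin (q + r) => ¬ ∀ k : Fin r, Sum.inr k ∉ U i)).card ≤
        ((univ : Finset (Fin r)).image some).card := by
      apply Finset.card_le_card_of_injOn g
      · intro i hi
        obtain ⟨k', hk', _⟩ := hg i (mem_filter.1 (Finset.mem_coe.1 hi)).2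
        rw [Finset.mem_coe, hk']
        exact Finset.mem_image_of_mem _ (mem_univ _)
      · intro i hi j hj hij
        obtain ⟨k1, hk1, hm1⟩ := hg i (mem_filter.1 (Finset.mem_coe.1 hi)).2
        obtain ⟨k2, hk2, hm2⟩ := hg j (mem_filter.1 (Finset.mem_coe.1 hj)).2
        rw [hk1, hk2] at hij
        have := Option.some.inj hij
        subst this
        by_contra hne
        exact (Finset.disjoint_left.1 (hdis i j hne)) hm1 hm2
    refine h1.trans ?_
    refine Finset.card_image_le.trans ?_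
    rw [Finset.card_univ, Fintype.card_fin]
  have hS : q ≤ S.card := by
    have h1 := Finset.card_filter_add_card_filter_not (s := (univ : Finset (Fin (q + r))))
      (fun i => ∀ k : Fin r, Sum.inr k ∉ U i)
    rw [Finset.card_univ, Fintype.card_fin] at h1
    have h2 : S.card = (univ.filter (fun i : Fin (q + r) => ∀ k : Fin r, Sum.inr k ∉ U i)).card := rfl
    omega
  obtain ⟨f⟩ : Nonempty (Fin q ↪ {i // i ∈ S}) := by
    apply Function.Embedding.nonempty_of_card_le
    rw [Fintype.card_fin, Fintype.card_coe]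
    exact hS
  have hleft : ∀ (i : Fin q) (x : V ⊕ Fin r), x ∈ U (f i).1 → ∃ y, x = Sum.inl y := by
    intro i x hx
    rcases x with y | k
    · exact ⟨y, rfl⟩
    · exact absurd hx ((mem_filter.1 (f i).2).2 k)
  choose root' hroot' using fun i : Fin q => hleft i (root (f i).1) (hr _)
  refine ⟨fun i => (U (f i).1).preimage Sum.inl Sum.inl_injective.injOn, root', ?_, ?_, ?_⟩
  · intro i
    rw [Finset.mem_preimage, ← hroot' i]
    exact hr _
  · intro i j hij
    rw [Finset.disjoint_left]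
    intro x hx hx'
    rw [Finset.mem_preimage] at hx hx'
    exact (Finset.disjoint_left.1 (hdis (f i).1 (f j).1
      (fun h => hij (f.injective (Subtype.ext h))))) hx hx'
  · intro i j hij
    have hne : (f i).1 ≠ (f j).1 := fun h => hij (f.injective (Subtype.ext h))
    rcases key _ _ hne with h | ⟨a, b, ha, ha', hb, hb', hab⟩
    · left
      rw [hroot' i, hroot' j] at h
      exact J_inl.1 h
    · right
      obtain ⟨a', rfl⟩ := hleft j a ha
      obtain ⟨b', rfl⟩ := hleft i b hb
      refine ⟨a', b', ?_, ?_, ?_, ?_, J_inl.1 hab⟩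
      · rw [Finset.mem_preimage]; exact ha
      · rintro rfl; exact ha' (hroot' j).symm
      · rw [Finset.mem_preimage]; exact hb
      · rintro rfl; exact hb' (hroot' i).symm

theorem colorable_J {V : Type} {G : SimpleGraph V} {r c : ℕ} (h : G.Colorable c) :
    (J G r).Colorable (c + r) := by
  obtain ⟨C⟩ := h
  have h1 : (J G r).Coloring (Fin c ⊕ Fin r) := SimpleGraph.Coloring.mk (Sum.map C id) (by
    intro x y hxy
    rcases x with u | i <;> rcases y with v | j
    · intro h
      exact C.valid (J_inl.1 hxy) (Sum.inl.inj h)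
    · intro h; cases h
    · intro h; cases h
    · intro h
      have : i = j := Sum.inr.inj h
      exact hxy.1 (by rw [this]))
  have h2 := h1.colorable
  rwa [Fintype.card_sum, Fintype.card_fin, Fintype.card_fin] at h2

open Classical in
theorem le_of_colorable_J {V : Type} {G : SimpleGraph V} {r c k : ℕ}
    (hG : G.chromaticNumber = c) (h : (J G r).Colorable k) : c + r ≤ k := by
  obtain ⟨C⟩ := h
  let S : Finset (Fin k) := univ.image (fun i : Fin r => C (Sum.inr i))
  have hSc : S.card = r := by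
    rw [Finset.card_image_of_injective, Finset.card_univ, Fintype.card_fin]
    intro i j hij
    by_contra hne
    exact C.valid (J_inr (G := G) (x := Sum.inr i) (i := j) (fun h => hne (Sum.inr.inj h))) hij
  have h1 : G.Coloring {x : Fin k // x ∉ S} := SimpleGraph.Coloring.mk
    (fun u => ⟨C (Sum.inl u), by
      intro hmem
      obtain ⟨i, _, hi⟩ := Finset.mem_image.1 hmem
      exact C.valid (J_inr (G := G) (x := Sum.inl u) (i := i) (by intro h; cases h)) hi.symm⟩)
    (by
      intro u v huv h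
      exact C.valid (J_inl.2 huv) (congrArg Subtype.val h))
  have h2 := h1.colorable
  rw [Fintype.card_subtype_compl, Fintype.card_fin] at h2
  have h3 : Fintype.card {x // x ∈ S} = r := by rw [Fintype.card_coe, hSc]
  have h4 : r ≤ k := by
    rw [← hSc]
    have := Finset.card_le_univ S
    rwa [Fintype.card_fin] at this
  have h5 : c ≤ k - r := by
    have h6 := h2.chromaticNumber_le
    rw [hG] at h6
    have h7 : c ≤ k - Fintype.card {x // x ∈ S} := by exact_mod_cast h6
    rwa [h3] at h7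
  omega

theorem chrom_J {V : Type} [Finite V] {G : SimpleGraph V} {r c : ℕ}
    (hG : G.chromaticNumber = c) : (J G r).chromaticNumber = ((c + r : ℕ) : ℕ∞) := by
  have hc : G.Colorable c := SimpleGraph.chromaticNumber_le_iff_colorable.1 hG.le
  have h1 := (colorable_J (r := r) hc).chromaticNumber_le
  apply le_antisymm h1
  have hne : (J G r).chromaticNumber ≠ ⊤ :=
    SimpleGraph.chromaticNumber_ne_top_iff_exists.2 ⟨_, colorable_J hc⟩
  obtain ⟨k, hk⟩ : ∃ k : ℕ, (J G r).chromaticNumber = k :=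
    ⟨(J G r).chromaticNumber.toNat, (ENat.natCast_toNat hne).symm⟩
  rw [hk]
  have h2 := le_of_colorable_J hG (SimpleGraph.chromaticNumber_le_iff_colorable.1 hk.le)
  exact_mod_cast h2

/-- no three independent vertices -/
def Alpha2 {V : Type} (G : SimpleGraph V) : Prop :=
  ∀ x y z, x ≠ y → y ≠ z → x ≠ z → G.Adj x y ∨ G.Adj y z ∨ G.Adj x z

theorem alpha_J {V : Type} {G : SimpleGraph V} {r : ℕ} (h : Alpha2 G) : Alpha2 (J G r) := by
  intro x y z hxy hyz hxz
  rcases x with u | i
  · rcases y with v | j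
    · rcases z with w | k
      · rcases h u v w (fun h => hxy (by rw [h])) (fun h => hyz (by rw [h]))
          (fun h => hxz (by rw [h])) with h | h | h
        · exact Or.inl (J_inl.2 h)
        · exact Or.inr (Or.inl (J_inl.2 h))
        · exact Or.inr (Or.inr (J_inl.2 h))
      · exact Or.inr (Or.inl (J_inr hyz))
    · exact Or.inl (J_inr hxy)
  · exact Or.inl (J_inr hxy.symm).symm

open Classical in
theorem card_le_of_alpha {V : Type} [Fintype V] {G : SimpleGraph V} (h : Alpha2 G) {c : ℕ}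
    (hc : G.Colorable c) : Fintype.card V ≤ 2 * c := by
  obtain ⟨C⟩ := hc
  have h1 := card_eq_sum_card_fiberwise (s := (univ : Finset V)) (t := (univ : Finset (Fin c))) (f := fun x => C x)
    (fun x _ => mem_coe.2 (mem_univ _))
  rw [card_univ] at h1
  rw [h1]
  calc ∑ b : Fin c, (univ.filter (fun x : V => C x = b)).card ≤ ∑ b : Fin c, 2 := by
        apply sum_le_sum
        intro b _
        by_contra hcon
        push Not at hcon
        obtain ⟨x, y, z, hx, hy, hz, hxy, hxz, hyz⟩ := two_lt_card_iff.1 hcon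
        have hx' := (mem_filter.1 hx).2
        have hy' := (mem_filter.1 hy).2
        have hz' := (mem_filter.1 hz).2
        rcases h x y z hxy hyz hxz with h | h | h
        · exact C.valid h (hx'.trans hy'.symm)
        · exact C.valid h (hy'.trans hz'.symm)
        · exact C.valid h (hx'.trans hz'.symm)
    _ = 2 * c := by simp [mul_comm]

/-- choice of the scale -/
theorem scale (p : ℕ) (hp : 4864 * 2 ^ 457 ≤ p) : ∃ w, 16777216 ≤ w ∧
    4864 * (2 ^ 97 * w ^ 15) ≤ p ∧ 524288 * p < 2550141696 * (2 ^ 97 * w ^ 15) := by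
  obtain ⟨c, hc⟩ : ∃ c : ℕ, c = 2 ^ 97 := ⟨_, rfl⟩
  have hcpos : 1 ≤ c := by rw [hc]; exact Nat.one_le_two_pow
  have h457 : 4864 * (c * 16777216 ^ 15) ≤ p := by
    refine le_trans (le_of_eq ?_) hp
    rw [hc]
    have : (16777216 : ℕ) = 2 ^ 24 := by norm_num
    rw [this, ← pow_mul, ← pow_add]
  rw [← hc]
  have hex : ∃ w, 16777216 ≤ w ∧ 4864 * (c * w ^ 15) ≤ p ∧ p < 4864 * (c * (w + 1) ^ 15) := by
    by_contra hcon
    push Not at hcon
    have hall : ∀ w, 16777216 ≤ w → 4864 * (c * w ^ 15) ≤ p := by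
      intro w hw
      induction w, hw using Nat.le_induction with
      | base => exact h457
      | succ w hw ih => exact hcon w hw ih
    have h1 := hall (16777216 + p) (by omega)
    have h2 : 16777216 + p ≤ (16777216 + p) ^ 15 := Nat.le_self_pow (by norm_num) _
    have h3 : (16777216 + p) ^ 15 ≤ c * (16777216 + p) ^ 15 := Nat.le_mul_of_pos_left _ hcpos
    omega
  obtain ⟨w, hw, h1, h2⟩ := hex
  refine ⟨w, hw, h1, ?_⟩
  have h3 : (w + 1) * 16777215 ≤ w * 16777216 := by omega
  have h4 : (w + 1) ^ 15 * 16777215 ^ 15 ≤ w ^ 15 * 16777216 ^ 15 := by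
    rw [← mul_pow, ← mul_pow]
    exact Nat.pow_le_pow_left h3 15
  have h5 : 16777216 ^ 15 * 524288 ≤ 16777215 ^ 15 * 524289 := by norm_num
  obtain ⟨A, hA⟩ : ∃ A : ℕ, A = 16777215 ^ 15 := ⟨_, rfl⟩
  obtain ⟨B, hB⟩ : ∃ B : ℕ, B = 16777216 ^ 15 := ⟨_, rfl⟩
  have hApos : 0 < A := by rw [hA]; exact Nat.pow_pos (by norm_num)
  rw [← hA, ← hB] at h4 h5
  have h6 : (524288 * p) * A < (2550141696 * (c * w ^ 15)) * A := by
    calc (524288 * p) * A = 524288 * A * p := by ring
      _ < 524288 * A * (4864 * (c * (w + 1) ^ 15)) := by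
          apply Nat.mul_lt_mul_of_pos_left h2
          exact Nat.mul_pos (by norm_num) hApos
      _ = 524288 * 4864 * c * ((w + 1) ^ 15 * A) := by ring
      _ ≤ 524288 * 4864 * c * (w ^ 15 * B) := Nat.mul_le_mul_left _ h4
      _ = 4864 * c * w ^ 15 * (B * 524288) := by ring
      _ ≤ 4864 * c * w ^ 15 * (A * 524289) := Nat.mul_le_mul_left _ h5
      _ = _ := by ring
  exact Nat.lt_of_mul_lt_mul_right h6

theorem main : ∀ p : ℕ, 4864 * 2 ^ 457 ≤ p → ∃ (V : Type) (_ : Fintype V) (G : SimpleGraph V),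
    G.chromaticNumber = p ∧ Alpha2 G ∧
    ∀ q : ℕ, 463 * p ≤ 464 * q → ∀ G' : G.Subgraph, ¬ HasKempeClique G'.coe q := by
  classical
  intro p hp
  obtain ⟨w, hm, hm1, hm2⟩ := scale p hp
  obtain ⟨V, hV, Hg, htf, hcard, hw⟩ := base w hm
  have hspos0 : 1 ≤ 2 ^ 97 * w ^ 15 :=
    Nat.mul_pos (Nat.pow_pos (by norm_num)) (Nat.pow_pos (by omega))
  obtain ⟨s, hs⟩ : ∃ s : ℕ, s = 2 ^ 97 * w ^ 15 := ⟨_, rfl⟩
  rw [← hs] at hm1 hm2 hcard hw hspos0
  have hal : Alpha2 Hgᶜ := by
    intro x y z hxy hyz hxz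
    by_contra hcon
    push Not at hcon
    have adj : ∀ u w : V, u ≠ w → ¬ Hgᶜ.Adj u w → Hg.Adj u w := by
      intro u w huw h
      by_contra h'
      exact h ((SimpleGraph.compl_adj Hg u w).2 ⟨huw, h'⟩)
    exact htf x y z (adj _ _ hxy hcon.1) (adj _ _ hyz hcon.2.1) (adj _ _ hxz hcon.2.2)
  have hcol : (Hgᶜ).Colorable (Fintype.card V) := SimpleGraph.colorable_of_fintype _
  have hne : (Hgᶜ).chromaticNumber ≠ ⊤ := SimpleGraph.chromaticNumber_ne_top_iff_exists.2 ⟨_, hcol⟩
  obtain ⟨c, hc⟩ : ∃ c : ℕ, (Hgᶜ).chromaticNumber = c :=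
    ⟨(Hgᶜ).chromaticNumber.toNat, (ENat.natCast_toNat hne).symm⟩
  have hc1 : c ≤ Fintype.card V := by
    have := hcol.chromaticNumber_le
    rw [hc] at this
    exact_mod_cast this
  have hc2 : Fintype.card V ≤ 2 * c :=
    card_le_of_alpha hal (SimpleGraph.chromaticNumber_le_iff_colorable.1 hc.le)
  rw [hcard] at hc1 hc2
  have hcp : c + (p - c) = p := by omega
  refine ⟨V ⊕ Fin (p - c), inferInstance, J Hgᶜ (p - c), ?_, alpha_J hal, ?_⟩
  · rw [chrom_J hc, hcp]
  · intro q hq G' hG'
    have h1 := weak_of_kempe _ G' q hG'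
    have hqr : q = (q - (p - c)) + (p - c) := by omega
    rw [hqr] at h1
    refine hw _ ?_ (weak_J h1)
    rw [hcard]
    omega

end Pool.Agent.Y408.CS
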