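import Pool.Agent.Results.MP_4cad9a_co.SchemesFail

/-!
# Chromatic schemes: the deterministic part with slack, and the parameters
-/

set_option autoImplicit false

namespace Pool.Agent.Y408.CS

open Finset Pool.Agent.Results.MP_4cad9a_co.SchemesFail

open Classical in
/-- The deterministic part of the argument, with slack `e` (adapted from the starting file). -/
theorem no_system' {V : Type} [Fintype V] [DecidableEq V] (π : V → Fin 6) (N s e : ℕ)
    (hπ : ∀ a, (univ.filter (fun x => π x = a)).card = wt a * N) (H : V → V → Prop)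
    (hA : ∀ (φ : V → V) (I J : Finset V) (a a' b b' : Fin 6), a ≠ a' → b ≠ b' →
        (∀ x ∈ I, π x = a ∧ π (φ x) = b) → (∀ x ∈ J, π x = a' ∧ π (φ x) = b') →
        (∀ x ∈ I ∪ J, ∀ y ∈ I ∪ J, φ x = φ y → x = y) →
        (∀ x ∈ I ∪ J, ∀ y ∈ I ∪ J, φ x ≠ y) →
        kmat a a' + kmat b b' + 1 ≤ 15 → s ≤ I.card → s ≤ J.card →
        ∃ i ∈ I, ∃ j ∈ J, H i j ∧ H (φ i) (φ j))
    (hB : ∀ (I J : Finset V) (a a' : Fin 6), a ≠ a' → (∀ x ∈ I, π x = a) → (∀ x ∈ J, π x = a') →
        s ≤ I.card → s ≤ J.card → ∃ i ∈ I, ∃ j ∈ J, H i j)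
    (hN : 96 * s + 3 * e < N) (p : ℕ) (U : Fin p → Finset V) (root : Fin p → V)
    (hroot : ∀ i, root i ∈ U i) (hdisj : ∀ i j, i ≠ j → Disjoint (U i) (U j))
    (hp : Fintype.card V ≤ 2 * p + e)
    (h1 : ∀ i j, i ≠ j → U i = {root i} → ¬ H (root i) (root j))
    (h2 : ∀ i j x y, i ≠ j → U i = {root i, x} → x ≠ root i → U j = {root j, y} → y ≠ root j →
      ¬ (H (root i) (root j) ∧ H x y)) : False := by
  -- general facts
  have sameU : ∀ i j x, x ∈ U i → x ∈ U j → i = j := by
    intro i j x hi hj
    by_contra hij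
    exact (Finset.disjoint_left.1 (hdisj i j hij)) hi hj
  have rootinj : Function.Injective root := by
    intro i j h
    exact sameU i j (root i) (hroot i) (h ▸ hroot j)
  have hn : Fintype.card V = 19 * N := by
    have h := card_eq_sum_card_fiberwise (s := (univ : Finset V)) (t := (univ : Finset (Fin 6))) (f := π)
      (fun x _ => mem_coe.2 (mem_univ _))
    rw [card_univ] at h
    rw [h]
    simp only [hπ, Fin.sum_univ_six]
    simp [wt]
    ring
  have wtle : ∀ a, 2 * wt a ≤ 12 := by decide
  -- roots per part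
  have hra : ∀ a, (univ.filter (fun i : Fin p => π (root i) = a)).card ≤ wt a * N := by
    intro a
    rw [← hπ a]
    apply card_le_card_of_injOn root
    · intro i hi
      exact mem_coe.2 (mem_filter.2 ⟨mem_univ _, (mem_filter.1 hi).2⟩)
    · exact rootinj.injOn
  have hpsum : p = ∑ a : Fin 6, (univ.filter (fun i : Fin p => π (root i) = a)).card := by
    have h := card_eq_sum_card_fiberwise (s := (univ : Finset (Fin p))) (t := (univ : Finset (Fin 6)))
      (f := fun i => π (root i)) (fun x _ => mem_coe.2 (mem_univ _))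
    rw [card_univ, Fintype.card_fin] at h
    exact h
  -- step 1 : few singletons
  have step1 : ∀ a, (univ.filter (fun i : Fin p => (U i).card = 1 ∧ π (root i) = a)).card ≤ s := by
    intro a
    by_contra hcon
    push Not at hcon
    have hc : ∀ c, c ≠ a → (univ.filter (fun i : Fin p => π (root i) = c)).card ≤ s := by
      intro c hca
      by_contra hcon2
      push Not at hcon2
      obtain ⟨x, hx, y, hy, hxy⟩ := hB
        ((univ.filter (fun i : Fin p => (U i).card = 1 ∧ π (root i) = a)).image root)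
        ((univ.filter (fun i : Fin p => π (root i) = c)).image root) a c hca.symm
        (by
          intro x hx
          obtain ⟨i, hi, rfl⟩ := mem_image.1 hx
          exact (mem_filter.1 hi).2.2)
        (by
          intro x hx
          obtain ⟨i, hi, rfl⟩ := mem_image.1 hx
          exact (mem_filter.1 hi).2)
        (by rw [card_image_of_injective _ rootinj]; omega)
        (by rw [card_image_of_injective _ rootinj]; omega)
      obtain ⟨i, hi, rfl⟩ := mem_image.1 hx
      obtain ⟨j, hj, rfl⟩ := mem_image.1 hy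
      obtain ⟨hi1, hi2⟩ := (mem_filter.1 hi).2
      have hj2 := (mem_filter.1 hj).2
      have hij : i ≠ j := by
        rintro rfl
        exact hca (hj2.symm.trans hi2)
      obtain ⟨z, hz⟩ := card_eq_one.1 hi1
      have hzr : root i = z := by
        have := hroot i
        rw [hz] at this
        exact mem_singleton.1 this
      exact h1 i j hij (by rw [hz, hzr]) hxy
    have hsum : p ≤ wt a * N + 5 * s := by
      calc p = ∑ c : Fin 6, (univ.filter (fun i : Fin p => π (root i) = c)).card := hpsum
        _ = (univ.filter (fun i : Fin p => π (root i) = a)).card +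
            ∑ c ∈ univ.erase a, (univ.filter (fun i : Fin p => π (root i) = c)).card := by
            exact (Finset.add_sum_erase univ (fun c => (univ.filter (fun i : Fin p => π (root i) = c)).card) (mem_univ a)).symm
        _ ≤ wt a * N + ∑ c ∈ univ.erase a, s := by
            apply Nat.add_le_add (hra a)
            apply sum_le_sum
            intro c hc'
            exact hc c (ne_of_mem_erase hc')
        _ = wt a * N + 5 * s := by
            rw [sum_const, card_erase_of_mem (mem_univ _)]
            simp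
    have h12 := wtle a
    have : 2 * wt a * N ≤ 12 * N := Nat.mul_le_mul_right _ h12
    have h3 : 2 * (wt a * N) = 2 * wt a * N := by ring
    omega
  set P1 := univ.filter (fun i : Fin p => (U i).card = 1) with hP1
  set P2 := univ.filter (fun i : Fin p => (U i).card = 2) with hP2
  have hP1card : P1.card ≤ 6 * s := by
    have h := card_eq_sum_card_fiberwise (s := P1) (t := (univ : Finset (Fin 6)))
      (f := fun i => π (root i)) (fun x _ => mem_coe.2 (mem_univ _))
    rw [h]
    calc ∑ b : Fin 6, (P1.filter (fun i => π (root i) = b)).card ≤ ∑ b : Fin 6, s := by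
          apply sum_le_sum
          intro b _
          refine le_trans (card_le_card ?_) (step1 b)
          intro i hi
          obtain ⟨hi1, hi2⟩ := mem_filter.1 hi
          exact mem_filter.2 ⟨mem_univ _, (mem_filter.1 hi1).2, hi2⟩
      _ = 6 * s := by simp
  -- step 2 : many pairs
  have hUsum : ∑ i : Fin p, (U i).card ≤ Fintype.card V := by
    rw [← card_biUnion (fun i _ j _ hij => hdisj i j hij)]
    exact card_le_univ _
  have step2 : Fintype.card V ≤ 2 * P2.card + 24 * s + 3 * e := by
    have h : ∑ i : Fin p, 3 ≤ ∑ i : Fin p, ((U i).card + 2 * (if (U i).card = 1 then 1 else 0)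
        + (if (U i).card = 2 then 1 else 0)) := by
      apply sum_le_sum
      intro i _
      have : 0 < (U i).card := card_pos.2 ⟨_, hroot i⟩
      by_cases c1 : (U i).card = 1
      · simp [c1]
      · by_cases c2 : (U i).card = 2
        · simp [c2]
        · simp [c1, c2]; omega
    rw [sum_add_distrib, sum_add_distrib, ← mul_sum, ← card_filter, ← card_filter] at h
    simp only [sum_const, card_univ, Fintype.card_fin, smul_eq_mul] at h
    have e1 : (univ.filter (fun i : Fin p => (U i).card = 1)).card = P1.card := rfl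
    have e2 : (univ.filter (fun i : Fin p => (U i).card = 2)).card = P2.card := rfl
    rw [e1, e2] at h
    omega
  -- mates
  have hmate : ∀ i : Fin p, ∃ x, i ∈ P2 → (U i = {root i, x} ∧ x ≠ root i) := by
    intro i
    by_cases hi : i ∈ P2
    · obtain ⟨x, y, hxy, hU⟩ := card_eq_two.1 (mem_filter.1 hi).2
      have hr := hroot i
      rw [hU, mem_insert, mem_singleton] at hr
      rcases hr with hr | hr
      · exact ⟨y, fun _ => ⟨by rw [hU, hr], by rw [hr]; exact hxy.symm⟩⟩
      · exact ⟨x, fun _ => ⟨by rw [hU, hr, pair_comm], by rw [hr]; exact hxy⟩⟩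
    · exact ⟨root i, fun h => absurd h hi⟩
  choose w hw using hmate
  have hwU : ∀ i ∈ P2, w i ∈ U i := by
    intro i hi
    rw [(hw i hi).1]; simp
  let T : Fin 6 → Fin 6 → Prop := fun a b =>
    s ≤ (P2.filter (fun i => π (root i) = a ∧ π (w i) = b)).card
  -- step 3 : heavy types do not conflict
  have step3 : ∀ a b c d, T a b → T c d → a ≠ c → b ≠ d → ¬ (kmat a c + kmat b d + 1 ≤ 15) := by
    intro a b c d hab hcd hac hbd hk
    let φ : V → V := Function.extend root w id
    have hφ : ∀ i, φ (root i) = w i := fun i => rootinj.extend_apply w id i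
    let I := (P2.filter (fun i => π (root i) = a ∧ π (w i) = b)).image root
    let J := (P2.filter (fun i => π (root i) = c ∧ π (w i) = d)).image root
    have memIJ : ∀ x ∈ I ∪ J, ∃ i ∈ P2, x = root i := by
      intro x hx
      rcases mem_union.1 hx with hx | hx
      · obtain ⟨i, hi, rfl⟩ := mem_image.1 hx
        exact ⟨i, (mem_filter.1 hi).1, rfl⟩
      · obtain ⟨i, hi, rfl⟩ := mem_image.1 hx
        exact ⟨i, (mem_filter.1 hi).1, rfl⟩
    obtain ⟨x, hx, y, hy, hxy1, hxy2⟩ := hA φ I J a c b d hac hbd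
      (by
        intro x hx
        obtain ⟨i, hi, rfl⟩ := mem_image.1 hx
        rw [hφ]
        exact (mem_filter.1 hi).2)
      (by
        intro x hx
        obtain ⟨i, hi, rfl⟩ := mem_image.1 hx
        rw [hφ]
        exact (mem_filter.1 hi).2)
      (by
        intro x hx y hy hxy
        obtain ⟨i, hi, rfl⟩ := memIJ x hx
        obtain ⟨j, hj, rfl⟩ := memIJ y hy
        rw [hφ, hφ] at hxy
        have : i = j := sameU i j (w i) (hwU i hi) (hxy ▸ hwU j hj)
        rw [this])
      (by
        intro x hx y hy hxy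
        obtain ⟨i, hi, rfl⟩ := memIJ x hx
        obtain ⟨j, hj, rfl⟩ := memIJ y hy
        rw [hφ] at hxy
        have : i = j := sameU i j (w i) (hwU i hi) (hxy ▸ hroot j)
        subst this
        exact (hw i hi).2 hxy)
      hk
      (by rw [card_image_of_injective _ rootinj]; exact hab)
      (by rw [card_image_of_injective _ rootinj]; exact hcd)
    obtain ⟨i, hi, rfl⟩ := mem_image.1 hx
    obtain ⟨j, hj, rfl⟩ := mem_image.1 hy
    obtain ⟨hi1, hi2, hi3⟩ := mem_filter.1 hi
    obtain ⟨hj1, hj2, hj3⟩ := mem_filter.1 hj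
    rw [hφ, hφ] at hxy2
    have hij : i ≠ j := by
      rintro rfl
      exact hac (hi2.symm.trans hj2)
    exact h2 i j (w i) (w j) hij (hw i hi1).1 (hw i hi1).2 (hw j hj1).1 (hw j hj1).2 ⟨hxy1, hxy2⟩
  obtain ⟨S, hS⟩ := part_level T step3
  set B := univ.filter (fun b => ∃ a ∈ S, T a b ∨ T b a) with hBdef
  have hSB : (∑ b ∈ B, wt b) < ∑ a ∈ S, wt a := hS B (fun b hb => (mem_filter.1 hb).2)
  -- step 4 : counting
  have fiberS : ∀ A : Finset (Fin 6), (univ.filter (fun x : V => π x ∈ A)).card = (∑ a ∈ A, wt a) * N := by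
    intro A
    have h := card_eq_sum_card_fiberwise (s := univ.filter (fun x : V => π x ∈ A)) (t := A) (f := π)
      (fun x hx => mem_coe.2 (mem_filter.1 hx).2)
    rw [h, sum_mul]
    apply sum_congr rfl
    intro a ha
    rw [← hπ a]
    congr 1
    ext x
    simp only [mem_filter, mem_univ, true_and]
    constructor
    · rintro ⟨_, h⟩; exact h
    · rintro h; exact ⟨by rw [h]; exact ha, h⟩
  let cI : Finset (Fin 6) → Fin p → ℕ := fun A i => ((U i).filter (fun x => π x ∈ A)).card
  set Hv := P2.filter (fun i => T (π (root i)) (π (w i))) with hHv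
  set Lt := P2.filter (fun i => ¬ T (π (root i)) (π (w i))) with hLt
  have hLtcard : Lt.card ≤ 36 * s := by
    have h := card_eq_sum_card_fiberwise (s := Lt) (t := (univ : Finset (Fin 6 × Fin 6)))
      (f := fun i => (π (root i), π (w i))) (fun x _ => mem_coe.2 (mem_univ _))
    rw [h]
    calc ∑ b : Fin 6 × Fin 6, (Lt.filter (fun i => (π (root i), π (w i)) = b)).card
        ≤ ∑ b : Fin 6 × Fin 6, s := by
          apply sum_le_sum
          rintro ⟨a, b⟩ _
          by_cases hab : T a b
          · have : Lt.filter (fun i => (π (root i), π (w i)) = (a, b)) = ∅ := by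
              apply filter_eq_empty_iff.2
              intro i hi h
              have h' := Prod.mk.inj h
              have hi' := (mem_filter.1 hi).2
              rw [h'.1, h'.2] at hi'
              exact hi' hab
            rw [this]; simp
          · have hlt : (P2.filter (fun i => π (root i) = a ∧ π (w i) = b)).card < s := by
              by_contra hcon
              exact hab (not_lt.1 hcon)
            refine le_trans (card_le_card ?_) hlt.le
            intro i hi
            obtain ⟨hi1, hi2⟩ := mem_filter.1 hi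
            have h' := Prod.mk.inj hi2
            exact mem_filter.2 ⟨(mem_filter.1 hi1).1, h'.1, h'.2⟩
      _ = 36 * s := by simp
  have hC : (P2.biUnion U).card = 2 * P2.card := by
    rw [card_biUnion (fun i _ j _ hij => hdisj i j hij)]
    rw [sum_congr rfl (g := fun _ => 2)]
    · rw [sum_const, smul_eq_mul]; ring
    · intro i hi; exact (mem_filter.1 hi).2
  have hlower : (∑ a ∈ S, wt a) * N ≤ (∑ i ∈ P2, cI S i) + (24 * s + 3 * e) := by
    rw [← fiberS S]
    have hsub : (univ.filter (fun x : V => π x ∈ S)) ⊆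
        (P2.biUnion (fun i => (U i).filter (fun x => π x ∈ S))) ∪ (P2.biUnion U)ᶜ := by
      intro x hx
      by_cases hxC : x ∈ P2.biUnion U
      · obtain ⟨i, hi, hxi⟩ := mem_biUnion.1 hxC
        exact mem_union_left _ (mem_biUnion.2 ⟨i, hi, mem_filter.2 ⟨hxi, (mem_filter.1 hx).2⟩⟩)
      · exact mem_union_right _ (mem_compl.2 hxC)
    calc (univ.filter (fun x : V => π x ∈ S)).card ≤ _ := card_le_card hsub
      _ ≤ (P2.biUnion (fun i => (U i).filter (fun x => π x ∈ S))).card + ((P2.biUnion U)ᶜ).card :=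
          card_union_le _ _
      _ ≤ (∑ i ∈ P2, cI S i) + (24 * s + 3 * e) := by
          apply Nat.add_le_add card_biUnion_le
          rw [card_compl, hC]
          omega
  have hsplit : (∑ i ∈ P2, cI S i) = (∑ i ∈ Hv, cI S i) + ∑ i ∈ Lt, cI S i := by
    rw [hHv, hLt, sum_filter_add_sum_filter_not]
  have hlight : ∑ i ∈ Lt, cI S i ≤ 72 * s := by
    calc ∑ i ∈ Lt, cI S i ≤ ∑ i ∈ Lt, 2 := by
          apply sum_le_sum
          intro i hi
          have h2' := (mem_filter.1 (mem_filter.1 hi).1).2
          exact (card_filter_le _ _).trans h2'.le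
      _ = Lt.card * 2 := by rw [sum_const, smul_eq_mul]
      _ ≤ 72 * s := by omega
  have hheavy1 : ∑ i ∈ Hv, cI S i ≤ ∑ i ∈ Hv, cI B i := by
    apply sum_le_sum
    intro i hi
    obtain ⟨hi1, hi2⟩ := mem_filter.1 hi
    have hU := (hw i hi1).1
    have hne := (hw i hi1).2
    have hcount : ∀ A : Finset (Fin 6), cI A i = (if π (root i) ∈ A then 1 else 0) + (if π (w i) ∈ A then 1 else 0) := by
      intro A
      show ((U i).filter (fun x => π x ∈ A)).card = _
      rw [hU, card_filter, sum_pair hne.symm]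
    rw [hcount S, hcount B]
    have i1 : π (root i) ∈ S → π (w i) ∈ B := fun h => mem_filter.2 ⟨mem_univ _, _, h, Or.inl hi2⟩
    have i2 : π (w i) ∈ S → π (root i) ∈ B := fun h => mem_filter.2 ⟨mem_univ _, _, h, Or.inr hi2⟩
    by_cases c1 : π (root i) ∈ S <;> by_cases c2 : π (w i) ∈ S
    · simp [c1, c2, i1 c1, i2 c2]
    · simp [c1, c2, i1 c1]
    · simp [c1, c2, i2 c2]
    · simp [c1, c2]
  have hheavy2 : ∑ i ∈ Hv, cI B i ≤ (∑ b ∈ B, wt b) * N := by
    rw [← fiberS B]
    have : ∑ i ∈ Hv, cI B i = (Hv.biUnion (fun i => (U i).filter (fun x => π x ∈ B))).card := by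
      rw [card_biUnion]
      intro i _ j _ hij
      exact disjoint_filter_filter (hdisj i j hij)
    rw [this]
    apply card_le_card
    intro x hx
    obtain ⟨i, _, hxi⟩ := mem_biUnion.1 hx
    exact mem_filter.2 ⟨mem_univ _, (mem_filter.1 hxi).2⟩
  have hfin : ((∑ b ∈ B, wt b) + 1) * N ≤ (∑ a ∈ S, wt a) * N := Nat.mul_le_mul_right _ hSB
  have hexp : ((∑ b ∈ B, wt b) + 1) * N = (∑ b ∈ B, wt b) * N + N := by ring
  omega



/-- the numerical parameters, `t = 128 * w` for all `w ≥ 2 ^ 24` -/
theorem numerics' (w : ℕ) (hw : 16777216 ≤ w) : ∃ t s' n L : ℕ, 0 < t ∧ s' = 2 ^ 97 * w ^ 15 ∧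
    t ^ 15 = 256 * s' ∧ n = 19 * (256 * s') ∧
    2 * (s' * s') + t ^ (15 - 1) * L ≤ (2 * s') * (2 * s') ∧
    4 * n ^ 3 ≤ (s' * s' + 1) * t ^ (15 + 1) ∧
    4 * (n ^ n * (2 ^ n * 2 ^ n)) ≤ 2 ^ L := by
  have hlin : ∀ k : ℕ, 24 ≤ k → (15 * k + 127) * 4864 + 2 ≤ 2 ^ k := by
    intro k hk
    induction k, hk using Nat.le_induction with
    | base => norm_num
    | succ k hk ih =>
      rw [pow_succ]
      generalize 2 ^ k = z at ih ⊢
      nlinarith
  have key0 : (128 * w) ^ 15 = 256 * (2 ^ 97 * w ^ 15) := by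
    rw [mul_pow, ← mul_assoc]
    congr 1
  obtain ⟨s', hs'⟩ : ∃ s' : ℕ, s' = 2 ^ 97 * w ^ 15 := ⟨_, rfl⟩
  obtain ⟨t, ht⟩ : ∃ t : ℕ, t = 128 * w := ⟨_, rfl⟩
  have key : t ^ 15 = 256 * s' := by rw [ht, hs']; exact key0
  have hwpos : 0 < w := by omega
  have hspos : 1 ≤ s' := by
    rw [hs']
    exact Nat.mul_pos (Nat.pow_pos (by norm_num)) (Nat.pow_pos hwpos)
  have ht31 : 2147483648 ≤ t := by omega
  refine ⟨t, s', 19 * (256 * s'), s' * w, ?_, hs', key, rfl, ?_, ?_, ?_⟩
  · omega
  · have h14 : t ^ (15 - 1) * (s' * w) = s' * 2 * s' := by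
      have h3 : t ^ 14 * w = 2 * s' := by
        have : t ^ 14 * w * 128 = (2 * s') * 128 := by
          calc t ^ 14 * w * 128 = t ^ 14 * (128 * w) := by ring
            _ = t ^ 14 * t := by rw [← ht]
            _ = t ^ 15 := (pow_succ t 14).symm
            _ = 256 * s' := key
            _ = _ := by ring
        exact Nat.eq_of_mul_eq_mul_right (by norm_num) this
      calc t ^ (15 - 1) * (s' * w) = (t ^ 14 * w) * s' := by
            show t ^ 14 * (s' * w) = _
            ring
        _ = _ := by rw [h3]; ring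
    rw [h14]; nlinarith
  · have h16 : t ^ (15 + 1) = 256 * s' * t := by rw [pow_succ, key]
    rw [h16]
    have e1 : 4 * (19 * (256 * s')) ^ 3 = 460299698176 * (s' * s' * s') := by ring
    rw [e1]
    have h5 : (s' * s' + 1) * (256 * s' * 2147483648) ≤ (s' * s' + 1) * (256 * s' * t) :=
      Nat.mul_le_mul_left _ (Nat.mul_le_mul_left _ ht31)
    refine le_trans ?_ h5
    have e2 : (s' * s' + 1) * (256 * s' * 2147483648) = 549755813888 * (s' * s' * s') + 549755813888 * s' := by ring
    rw [e2]
    have : 460299698176 * (s' * s' * s') ≤ 549755813888 * (s' * s' * s') := Nat.mul_le_mul_right _ (by norm_num)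
    omega
  · obtain ⟨k, hk⟩ : ∃ k, k = Nat.log 2 w := ⟨_, rfl⟩
    have hk1 : 2 ^ k ≤ w := by rw [hk]; exact Nat.pow_log_le_self 2 (by omega)
    have hk2 : w ≤ 2 ^ (k + 1) := by rw [hk]; exact (Nat.lt_pow_succ_log_self (by norm_num) w).le
    have hk24 : 24 ≤ k := by
      rw [hk]
      apply Nat.le_log_of_pow_le (by norm_num)
      norm_num
      exact hw
    set n := 19 * (256 * s') with hn
    have hn1 : n ≤ 2 ^ (15 * k + 125) := by
      have h1 : w ^ 15 ≤ 2 ^ (15 * k + 15) := by
        calc w ^ 15 ≤ (2 ^ (k + 1)) ^ 15 := Nat.pow_le_pow_left hk2 15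
          _ = 2 ^ ((k + 1) * 15) := (pow_mul 2 (k + 1) 15).symm
          _ = 2 ^ (15 * k + 15) := by congr 1; ring
      have h2 : (2:ℕ) ^ (15 * k + 125) = 2 ^ 110 * 2 ^ (15 * k + 15) := by
        rw [← pow_add]; congr 1; ring
      rw [h2, hn, hs']
      calc 19 * (256 * (2 ^ 97 * w ^ 15)) = (4864 * 2 ^ 97) * w ^ 15 := by ring
        _ ≤ 2 ^ 110 * 2 ^ (15 * k + 15) := Nat.mul_le_mul (by norm_num) h1
    calc 4 * (n ^ n * (2 ^ n * 2 ^ n)) ≤ 2 ^ 2 * ((2 ^ (15 * k + 125)) ^ n * (2 ^ n * 2 ^ n)) := by
          apply Nat.mul_le_mul (by norm_num)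
          exact Nat.mul_le_mul_right _ (Nat.pow_le_pow_left hn1 n)
      _ = 2 ^ (2 + ((15 * k + 125) * n + (n + n))) := by
          rw [← pow_mul, ← pow_add, ← pow_add, ← pow_add]
      _ ≤ 2 ^ (s' * w) := by
          apply Nat.pow_le_pow_right (by norm_num)
          have h6 := (hlin k hk24).trans hk1
          calc 2 + ((15 * k + 125) * n + (n + n)) = 2 + (15 * k + 127) * n := by ring
            _ ≤ 2 * s' + (15 * k + 127) * (4864 * s') := by
                have : n = 4864 * s' := by rw [hn]; ring
                rw [this]; omega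
            _ = s' * ((15 * k + 127) * 4864 + 2) := by ring
            _ ≤ s' * w := Nat.mul_le_mul_left _ h6

end Pool.Agent.Y408.CS
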